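import Pool.Agent.Lib.MP_918176_nt.Defs

set_option autoImplicit false

namespace Pool.Agent.Lib.MP_918176_nt

open PowerSeries Filter
open scoped PowerSeries.WithPiTopology

/-- `1/(1 - x^(2^i))` -/
noncomputable def A (i : ℕ) : ℤ⟦X⟧ := invOfUnit (1 - X ^ (2 ^ i)) 1

lemma A_mul (i : ℕ) : (1 - X ^ (2 ^ i)) * A i = 1 := by
  unfold A
  apply mul_invOfUnit
  simp

lemma A_eq (i : ℕ) : A i = 1 + X ^ (2 ^ i) * A i := by
  have := A_mul i
  linear_combination this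

lemma A_unique (i : ℕ) (B : ℤ⟦X⟧) (h : (1 - X ^ (2 ^ i)) * B = 1) : B = A i := by
  have h1 := A_mul i
  calc B = B * ((1 - X ^ (2 ^ i)) * A i) := by rw [h1, mul_one]
    _ = ((1 - X ^ (2 ^ i)) * B) * A i := by ring
    _ = A i := by rw [h, one_mul]

/-- substitution `x ↦ x^2` -/
noncomputable def E : ℤ⟦X⟧ →ₐ[ℤ] ℤ⟦X⟧ := PowerSeries.expand 2 two_ne_zero

lemma E_X : E X = X ^ 2 := by
  unfold E
  exact expand_X 2 two_ne_zero

lemma E_A (i : ℕ) : E (A i) = A (i + 1) := by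
  apply A_unique
  have h := congrArg E (A_mul i)
  rw [map_mul, map_sub, map_pow, E_X, map_one, ← pow_mul] at h
  rw [pow_succ, mul_comm (2 ^ i) 2]
  exact h

lemma coeff_E (f : ℤ⟦X⟧) (n : ℕ) : coeff n (E f) = if 2 ∣ n then coeff (n / 2) f else 0 := by
  unfold E
  exact coeff_expand 2 two_ne_zero f

lemma continuous_E : Continuous E := by
  rw [continuous_iff_continuousAt]
  intro f
  rw [ContinuousAt, WithPiTopology.tendsto_iff_coeff_tendsto]
  intro d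
  simp_rw [coeff_E]
  split_ifs
  · exact (WithPiTopology.continuous_coeff ℤ (d / 2)).continuousAt
  · exact tendsto_const_nhds

lemma dvd_A_pow_sub_one (i m : ℕ) : X ^ (2 ^ i) ∣ A i ^ m - 1 := by
  have h1 : A i - 1 ∣ A i ^ m - 1 := sub_one_dvd_pow_sub_one _ _
  have h2 : X ^ (2 ^ i) ∣ A i - 1 := ⟨A i, by linear_combination A_eq i⟩
  exact h2.trans h1

lemma multipliable_fac (m : ℕ) : Multipliable (fun i : ℕ => (A i) ^ m) := by
  have : (fun i : ℕ => (A i) ^ m) = fun i => 1 + (A i ^ m - 1) := by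
    funext i; ring
  rw [this]
  apply WithPiTopology.multipliable_one_add_of_tendsto_order_atTop_nhds_top
  refine ENat.tendsto_nhds_top_iff_natCast_lt.mpr (fun n ↦ Filter.eventually_atTop.mpr ⟨n, ?_⟩)
  intro i hi
  have h1 : ((2 ^ i : ℕ) : ℕ∞) ≤ (A i ^ m - 1).order := by
    apply PowerSeries.le_order
    intro j hj
    have hj' : j < 2 ^ i := by exact_mod_cast hj
    exact (X_pow_dvd_iff.mp (dvd_A_pow_sub_one i m)) j hj'
  have h2 : n < 2 ^ i := lt_of_le_of_lt hi Nat.lt_two_pow_self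
  exact lt_of_lt_of_le (by exact_mod_cast h2) h1

lemma genSeries_eq (m : ℕ) : genSeries m = A 0 ^ m * ∏' i : ℕ, (A i) ^ m := by
  unfold genSeries A
  simp

lemma multipliable_one_sub (m : ℕ) : Multipliable (fun i : ℕ => (1 - X ^ (2 ^ i) : ℤ⟦X⟧) ^ m) := by
  have : (fun i : ℕ => (1 - X ^ (2 ^ i) : ℤ⟦X⟧) ^ m)
      = fun i => 1 + ((1 - X ^ (2 ^ i) : ℤ⟦X⟧) ^ m - 1) := by
    funext i; ring
  rw [this]
  apply WithPiTopology.multipliable_one_add_of_tendsto_order_atTop_nhds_top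
  refine ENat.tendsto_nhds_top_iff_natCast_lt.mpr (fun n ↦ Filter.eventually_atTop.mpr ⟨n, ?_⟩)
  intro i hi
  have h1 : ((2 ^ i : ℕ) : ℕ∞) ≤ ((1 - X ^ (2 ^ i) : ℤ⟦X⟧) ^ m - 1).order := by
    apply PowerSeries.le_order
    intro j hj
    have hj' : j < 2 ^ i := by exact_mod_cast hj
    have hd : (X : ℤ⟦X⟧) ^ (2 ^ i) ∣ (1 - X ^ (2 ^ i) : ℤ⟦X⟧) ^ m - 1 := by
      refine Dvd.dvd.trans ?_ (sub_one_dvd_pow_sub_one _ m)
      exact ⟨-1, by ring⟩
    exact (X_pow_dvd_iff.mp hd) j hj'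
  have h2 : n < 2 ^ i := lt_of_le_of_lt hi Nat.lt_two_pow_self
  exact lt_of_lt_of_le (by exact_mod_cast h2) h1

/-- The defining identity of the problem:
`(1 - x)^m * ∏_{i ≥ 0} (1 - x^(2^i))^m * ∑ c_m(n) x^n = 1`. -/
theorem defining_identity (m : ℕ) :
    (1 - X : ℤ⟦X⟧) ^ m * (∏' i : ℕ, (1 - X ^ (2 ^ i) : ℤ⟦X⟧) ^ m) * PowerSeries.mk (c m) = 1 := by
  have h0 : PowerSeries.mk (c m) = genSeries m := by
    ext n
    simp [c]
  have h1 : (∏' i : ℕ, (1 - X ^ (2 ^ i) : ℤ⟦X⟧) ^ m) * (∏' i : ℕ, (A i) ^ m) = 1 := by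
    rw [← (multipliable_one_sub m).tprod_mul (multipliable_fac m)]
    have : (fun i : ℕ => (1 - X ^ (2 ^ i) : ℤ⟦X⟧) ^ m * (A i) ^ m) = fun _ => 1 := by
      funext i
      rw [← mul_pow, A_mul, one_pow]
    rw [this, tprod_one]
  have h2 : (1 - X : ℤ⟦X⟧) ^ m * (A 0) ^ m = 1 := by
    have := A_mul 0
    rw [pow_zero, pow_one] at this
    rw [← mul_pow, this, one_pow]
  rw [h0, genSeries_eq]
  calc (1 - X : ℤ⟦X⟧) ^ m * (∏' i : ℕ, (1 - X ^ (2 ^ i) : ℤ⟦X⟧) ^ m) * (A 0 ^ m * ∏' i : ℕ, (A i) ^ m)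
      = ((1 - X : ℤ⟦X⟧) ^ m * (A 0) ^ m) * ((∏' i : ℕ, (1 - X ^ (2 ^ i) : ℤ⟦X⟧) ^ m) * (∏' i : ℕ, (A i) ^ m)) := by ring
    _ = 1 := by rw [h1, h2, one_mul]

/-- `(1+x)/(1-x)` -/
noncomputable def s : ℤ⟦X⟧ := (1 + X) * A 0

lemma genSeries_functional (m : ℕ) : genSeries m = s ^ m * E (genSeries m) := by
  have hP : (∏' i : ℕ, (A i) ^ m) = A 0 ^ m * E (∏' i : ℕ, (A i) ^ m) := by
    rw [(multipliable_fac m).map_tprod E continuous_E]
    rw [tprod_eq_zero_mul' (f := fun i => A i ^ m)]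
    · congr 1
      apply tprod_congr
      intro i
      rw [map_pow, E_A]
    · have := (multipliable_fac m).map E continuous_E
      refine this.congr ?_
      intro i
      simp [map_pow, E_A]
  have hs : (1 + X) * A 1 = A 0 := by
    apply A_unique
    have := A_mul 1
    simp only [pow_zero, pow_one] at this ⊢
    linear_combination this
  rw [genSeries_eq]
  rw [map_mul, map_pow, E_A]
  conv_lhs => rw [hP]
  have : A 0 ^ m = (1 + X) ^ m * A 1 ^ m := by rw [← mul_pow, hs]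
  unfold s
  rw [mul_pow]
  linear_combination (A 0 ^ m * E (∏' i : ℕ, (A i) ^ m)) * this

end Pool.Agent.Lib.MP_918176_nt
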