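import Mathlib

set_option autoImplicit false

namespace Pool.Agent.Lib.MP_918176_nt

open PowerSeries
open scoped PowerSeries.WithPiTopology

/-- The power series `(1 - x)^(-m) * ∏_{i ≥ 0} (1 - x^(2^i))^(-m)` over the integers.
Here `PowerSeries.invOfUnit f 1` is the inverse power series of a power series `f` with constant
coefficient `1`, and the infinite product `∏'` is taken in the topology of coefficientwise
convergence (`ℤ` being discrete). The product converges (`multipliable_fac` in `Basic.lean`), and
`(1 - x)^m * ∏_{i ≥ 0} (1 - x^(2^i))^m * genSeries m = 1` (`defining_identity` in `Basic.lean`). -/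
noncomputable def genSeries (m : ℕ) : ℤ⟦X⟧ :=
  (invOfUnit (1 - X) 1) ^ m * ∏' i : ℕ, (invOfUnit (1 - X ^ (2 ^ i)) 1) ^ m

/-- `c m n` is the coefficient of `x^n` in
`(1 - x)^(-m) * ∏_{i ≥ 0} (1 - x^(2^i))^(-m)`. -/
noncomputable def c (m n : ℕ) : ℤ := coeff n (genSeries m)

end Pool.Agent.Lib.MP_918176_nt
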