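import Pool.Agent.Lib.MP_918176_nt.Lattice

set_option autoImplicit false

namespace Pool.Agent.Lib.MP_918176_nt

open PowerSeries Filter
open scoped PowerSeries.WithPiTopology

lemma T_even (k : ℕ) (G : ℤ⟦X⟧) : T (2 * k) G = U ((1 + t) ^ k * G) := by
  rw [T_apply, pow_mul, s_sq]

/-- one application of the operator keeps the leading coefficient odd and gains one factor 2 -/
lemma T_even_step (k : ℕ) (n : ℤ) (hn : Odd n) (G : ℤ⟦X⟧) (hG : G ∈ S) :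
    ∃ n' : ℤ, Odd n' ∧ ∃ G' ∈ S,
      T (2 * k) (n * t + t ^ 2 * G) = 2 * (n' * t + t ^ 2 * G') := by
  obtain ⟨K, hK, eK⟩ := one_add_t_pow k
  have h1 : (1 + t) * ((n : ℤ⟦X⟧) * ((k : ℤ) + t * K) + (1 + t) ^ k * G) ∈ S := by
    refine S.mul_mem (S.add_mem S.one_mem t_mem) (S.add_mem (S.mul_mem (int_mem n) (S.add_mem (int_mem _) (S.mul_mem t_mem hK))) (S.mul_mem (S.pow_mem (S.add_mem S.one_mem t_mem) _) hG))
  obtain ⟨n1, G1, hG1, e1⟩ := S_split _ (U_mem _ h1)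
  refine ⟨n + 2 * n1, ?_, 2 * G1, S.mul_mem (ofNat_mem' 2) hG1, ?_⟩
  · obtain ⟨w, hw⟩ := hn
    exact ⟨w + n1, by rw [hw]; ring⟩
  · rw [T_even]
    have e2 : (1 + t) ^ k * ((n : ℤ⟦X⟧) * t + t ^ 2 * G)
        = (n : ℤ⟦X⟧) * t + t ^ 2 * ((n : ℤ⟦X⟧) * ((k : ℤ) + t * K) + (1 + t) ^ k * G) := by
      have : (1 + t) ^ k * ((n : ℤ⟦X⟧) * t) = (1 + (k : ℤ) * t + t ^ 2 * K) * ((n : ℤ⟦X⟧) * t) := by
        rw [eK]
      linear_combination this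
    rw [e2, map_add, U_int_mul, U_t, U_t_sq_mul, e1]
    push_cast
    ring

lemma T_even_iter (k r : ℕ) (n : ℤ) (hn : Odd n) (G : ℤ⟦X⟧) (hG : G ∈ S) :
    ∃ n' : ℤ, Odd n' ∧ ∃ G' ∈ S,
      ((T (2 * k)) ^ r) (n * t + t ^ 2 * G) = 2 ^ r * (n' * t + t ^ 2 * G') := by
  induction r with
  | zero => exact ⟨n, hn, G, hG, by simp⟩
  | succ r ih =>
    obtain ⟨n1, hn1, G1, hG1, e1⟩ := ih
    obtain ⟨n2, hn2, G2, hG2, e2⟩ := T_even_step k n1 hn1 G1 hG1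
    refine ⟨n2, hn2, G2, hG2, ?_⟩
    rw [pow_succ', Module.End.mul_apply, e1]
    have : (2 : ℤ⟦X⟧) ^ r * ((n1 : ℤ⟦X⟧) * t + t ^ 2 * G1) = ((2 ^ r : ℤ)) • ((n1 : ℤ⟦X⟧) * t + t ^ 2 * G1) := by
      rw [zsmul_eq_mul]; push_cast; ring
    rw [this, map_zsmul, e2, zsmul_eq_mul]
    push_cast
    ring

/-- for odd `k`: `ch k = 1 + 2 (n t + t^2 G)` with `n` odd. -/
lemma ch_odd (k : ℕ) (hk : Odd k) : ∃ n : ℤ, Odd n ∧ ∃ G ∈ S, ch k = 1 + 2 * (n * t + t ^ 2 * G) := by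
  obtain ⟨Z, hZ, e⟩ := ch_form k
  refine ⟨(k : ℤ) ^ 2, ?_, 4 * Z, S.mul_mem (ofNat_mem' 4) hZ, ?_⟩
  · exact Odd.pow (by exact_mod_cast hk)
  · rw [e]; push_cast; ring

/-- in general, with `k = 2^e k'`, `k'` odd: `ch k = 1 + 2^(2e+1) (n t + t^2 G)`. -/
lemma ch_gen (e k : ℕ) (hk : Odd k) :
    ∃ n : ℤ, Odd n ∧ ∃ G ∈ S, ch (2 ^ e * k) = 1 + 2 ^ (2 * e + 1) * (n * t + t ^ 2 * G) := by
  induction e with
  | zero =>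
    obtain ⟨n, hn, G, hG, h⟩ := ch_odd k hk
    refine ⟨n, hn, G, hG, ?_⟩
    rw [pow_zero, one_mul, h]; ring
  | succ e ih =>
    obtain ⟨n, hn, G, hG, h⟩ := ih
    refine ⟨n, hn, G + 2 ^ (2 * e) * ((n : ℤ⟦X⟧) + t * G) ^ 2, ?_, ?_⟩
    · exact S.add_mem hG (S.mul_mem (S.pow_mem (ofNat_mem' 2) _) (S.pow_mem (S.add_mem (int_mem n) (S.mul_mem t_mem hG)) _))
    · have e1 : 2 ^ (e + 1) * k = 2 * (2 ^ e * k) := by ring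
      rw [e1, ch_two_mul, h]
      ring

lemma T_even_one (k : ℕ) : T (2 * k) 1 = ch k := by
  rw [T_even, mul_one]; rfl

lemma T_zsmul' (m : ℕ) (a : ℤ) (f : ℤ⟦X⟧) : T m ((a : ℤ⟦X⟧) * f) = (a : ℤ⟦X⟧) * T m f := by
  rw [← zsmul_eq_mul, ← zsmul_eq_mul, map_zsmul]

lemma T_iter_zsmul' (m r : ℕ) (a : ℤ) (f : ℤ⟦X⟧) :
    ((T m) ^ r) ((a : ℤ⟦X⟧) * f) = (a : ℤ⟦X⟧) * ((T m) ^ r) f := by
  rw [← zsmul_eq_mul, ← zsmul_eq_mul, map_zsmul]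

lemma D_even (e k : ℕ) (hk : Odd k) :
    ∃ n : ℤ, Odd n ∧ ∃ G ∈ S,
      T (2 * (2 ^ e * k)) (T (2 * (2 ^ e * k)) 1) - 1
        = ((2 ^ (2 * e + 1) : ℤ) : ℤ⟦X⟧) * (n * t + t ^ 2 * G) := by
  obtain ⟨n, hn, G, hG, h⟩ := ch_gen e k hk
  obtain ⟨n1, hn1, G1, hG1, h1⟩ := T_even_step (2 ^ e * k) n hn G hG
  refine ⟨n + 2 * n1, ?_, G + 2 * G1, S.add_mem hG (S.mul_mem (ofNat_mem' 2) hG1), ?_⟩
  · obtain ⟨w, hw⟩ := hn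
    exact ⟨w + n1, by rw [hw]; ring⟩
  · have h2 : T (2 * (2 ^ e * k)) 1
        = 1 + ((2 ^ (2 * e + 1) : ℤ) : ℤ⟦X⟧) * (n * t + t ^ 2 * G) := by
      rw [T_even_one, h]; push_cast; ring
    have h3 : T (2 * (2 ^ e * k)) (1 + ((2 ^ (2 * e + 1) : ℤ) : ℤ⟦X⟧) * (n * t + t ^ 2 * G))
        = (1 + ((2 ^ (2 * e + 1) : ℤ) : ℤ⟦X⟧) * (n * t + t ^ 2 * G))
          + ((2 ^ (2 * e + 1) : ℤ) : ℤ⟦X⟧) * (2 * (n1 * t + t ^ 2 * G1)) := by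
      rw [map_add, T_zsmul', h1, h2]
    rw [h2, h3]
    push_cast
    ring

lemma emult_of_eq (z w : ℤ) (N : ℕ) (h : z = 2 ^ N * (2 * w + 1)) :
    emultiplicity (2 : ℤ) z = N := by
  rw [emultiplicity_eq_coe]
  constructor
  · exact ⟨_, h⟩
  · rintro ⟨v, hv⟩
    rw [h, pow_succ, mul_assoc] at hv
    have := mul_left_cancel₀ (by positivity : (2 : ℤ) ^ N ≠ 0) hv
    omega

lemma emult_two_pow_mul (r n' : ℕ) (hn' : Odd n') : emultiplicity 2 (2 ^ r * n') = r := by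
  rw [emultiplicity_eq_coe]
  refine ⟨⟨_, rfl⟩, ?_⟩
  rintro ⟨v, hv⟩
  rw [pow_succ, mul_assoc] at hv
  have := mul_left_cancel₀ (by positivity : (2 : ℕ) ^ r ≠ 0) hv
  obtain ⟨q, hq⟩ := hn'
  omega

/-- the exact valuation for even `m` -/
theorem even_main (k n : ℕ) (hk : 1 ≤ k) (hn : 1 ≤ n) :
    emultiplicity (2 : ℤ) (c (2 * k) (4 * n) - c (2 * k) n)
      = emultiplicity 2 n + 2 * emultiplicity 2 k + 3 := by
  obtain ⟨e, k', hk', rfl⟩ := Nat.exists_eq_two_pow_mul_odd (n := k) (by omega)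
  obtain ⟨r, n', hn', rfl⟩ := Nat.exists_eq_two_pow_mul_odd (n := n) (by omega)
  obtain ⟨a, ha, G, hG, h⟩ := D_even e k' hk'
  obtain ⟨b, hb, H, hH, h2⟩ := T_even_iter (2 ^ e * k') r a ha G hG
  obtain ⟨w, hw⟩ := hb
  obtain ⟨z, hz⟩ := coeff_gen_mul_u (2 * (2 ^ e * k')) n' hn' (2 ^ (2 * e + 1 + r + 2))
    ((w : ℤ⟦X⟧) * u + 2 * u ^ 2 * H)
  have hc : c (2 * (2 ^ e * k')) (4 * (2 ^ r * n')) - c (2 * (2 ^ e * k')) (2 ^ r * n')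
      = 2 ^ (2 * e + 1 + r + 2) * (2 * z + 1) := by
    rw [c_diff, h, T_iter_zsmul', h2, ← hz]
    congr 2
    rw [hw, t_eq]
    have h2C : ∀ (x : ℤ), (C x : ℤ⟦X⟧) = ((x : ℤ) : ℤ⟦X⟧) := fun x => by simp
    rw [h2C, h2C]
    push_cast
    ring
  have e1 := emult_two_pow_mul r n' hn'
  have e2 := emult_two_pow_mul e k' hk'
  rw [emult_of_eq _ z _ hc, e1, e2]
  push_cast
  ring

end Pool.Agent.Lib.MP_918176_nt
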