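import Pool.Agent.Lib.MP_918176_nt.Oper

set_option autoImplicit false

namespace Pool.Agent.Lib.MP_918176_nt

open PowerSeries Filter
open scoped PowerSeries.WithPiTopology

/-- the subring of integer polynomials in `t` -/
noncomputable def S : Subalgebra ℤ ℤ⟦X⟧ := Algebra.adjoin ℤ {t}

lemma t_mem : t ∈ S := Algebra.subset_adjoin rfl

lemma int_mem (a : ℤ) : (a : ℤ⟦X⟧) ∈ S := by
  simp

lemma nat_mem (a : ℕ) : (a : ℤ⟦X⟧) ∈ S := by
  simp

lemma ofNat_mem' (a : ℕ) [a.AtLeastTwo] : (ofNat(a) : ℤ⟦X⟧) ∈ S := nat_mem a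

lemma S_induction {p : ℤ⟦X⟧ → Prop}
    (hadd : ∀ f g, p f → p g → p (f + g)) (hmon : ∀ (a : ℤ) (j : ℕ), p ((a : ℤ⟦X⟧) * t ^ j)) :
    ∀ G ∈ S, p G := by
  intro G hG
  unfold S at hG
  rw [Algebra.adjoin_singleton_eq_range_aeval] at hG
  obtain ⟨P, rfl⟩ := hG
  induction P using Polynomial.induction_on' with
  | add f g hf hg =>
    have : (Polynomial.aeval t).toRingHom (f + g) = (Polynomial.aeval t).toRingHom f + (Polynomial.aeval t).toRingHom g := map_add _ _ _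
    rw [this]
    exact hadd _ _ hf hg
  | monomial n a =>
    have : (Polynomial.aeval t).toRingHom (Polynomial.monomial n a) = (a : ℤ⟦X⟧) * t ^ n := by
      simp [Polynomial.aeval_monomial]
    rw [this]
    exact hmon a n

lemma S_split (G : ℤ⟦X⟧) (hG : G ∈ S) : ∃ n : ℤ, ∃ G' ∈ S, G = n + t * G' := by
  revert G
  apply S_induction
  · rintro f g ⟨n, F, hF, rfl⟩ ⟨m, G, hG, rfl⟩
    refine ⟨n + m, F + G, S.add_mem hF hG, ?_⟩
    push_cast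
    ring
  · intro a j
    rcases j with _ | j
    · exact ⟨a, 0, S.zero_mem, by simp⟩
    · refine ⟨0, (a : ℤ⟦X⟧) * t ^ j, S.mul_mem (int_mem a) (S.pow_mem t_mem _), ?_⟩
      push_cast
      ring

lemma U_int_mul (a : ℤ) (f : ℤ⟦X⟧) : U ((a : ℤ⟦X⟧) * f) = (a : ℤ⟦X⟧) * U f := by
  rw [← zsmul_eq_mul, ← zsmul_eq_mul, map_zsmul]

lemma U_t_pow_mem (j : ℕ) : U (t ^ j) ∈ S := by
  induction j using Nat.strong_induction_on with
  | _ j ih =>
    rcases j with _ | _ | j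
    · rw [pow_zero, U_one]; exact S.one_mem
    · rw [zero_add, pow_one, U_t]
      exact S.mul_mem (ofNat_mem' 2) t_mem
    · have e : t ^ (j + 1 + 1) = t ^ 2 * t ^ j := by ring
      have e2 : (1 + t) * t ^ j = t ^ j + t ^ (j + 1) := by ring
      rw [e, U_t_sq_mul, e2, map_add]
      exact S.mul_mem (S.mul_mem (ofNat_mem' 4) t_mem) (S.add_mem (ih j (by omega)) (ih (j + 1) (by omega)))

lemma U_mem (G : ℤ⟦X⟧) (hG : G ∈ S) : U G ∈ S := by
  revert G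
  apply S_induction
  · intro f g hf hg
    rw [map_add]
    exact S.add_mem hf hg
  · intro a j
    rw [U_int_mul]
    exact S.mul_mem (int_mem a) (U_t_pow_mem j)

lemma U_s_t_pow_mem (j : ℕ) : ∃ H ∈ S, U (s * t ^ j) = s * H := by
  induction j using Nat.strong_induction_on with
  | _ j ih =>
    rcases j with _ | _ | j
    · refine ⟨1, S.one_mem, ?_⟩
      rw [pow_zero, mul_one, U_s]
    · refine ⟨4 * t, S.mul_mem (ofNat_mem' 4) t_mem, ?_⟩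
      rw [zero_add, pow_one, U_st]
      ring
    · obtain ⟨H1, h1, e1⟩ := ih j (by omega)
      obtain ⟨H2, h2, e2⟩ := ih (j + 1) (by omega)
      refine ⟨4 * t * (H1 + H2), S.mul_mem (S.mul_mem (ofNat_mem' 4) t_mem) (S.add_mem h1 h2), ?_⟩
      have e : s * t ^ (j + 1 + 1) = t ^ 2 * (s * t ^ j) := by ring
      have e' : (1 + t) * (s * t ^ j) = s * t ^ j + s * t ^ (j + 1) := by ring
      rw [e, U_t_sq_mul, e', map_add, e1, e2]
      ring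

lemma U_s_mem (G : ℤ⟦X⟧) (hG : G ∈ S) : ∃ H ∈ S, U (s * G) = s * H := by
  revert G
  apply S_induction
  · rintro f g ⟨H1, h1, e1⟩ ⟨H2, h2, e2⟩
    refine ⟨H1 + H2, S.add_mem h1 h2, ?_⟩
    rw [mul_add, map_add, e1, e2, mul_add]
  · intro a j
    obtain ⟨H, h, e⟩ := U_s_t_pow_mem j
    refine ⟨a * H, S.mul_mem (int_mem a) h, ?_⟩
    have : s * ((a : ℤ⟦X⟧) * t ^ j) = (a : ℤ⟦X⟧) * (s * t ^ j) := by ring
    rw [this, U_int_mul, e]
    ring

/-- `U(t^2 G) = 4 t G'` -/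
lemma U_tt (G : ℤ⟦X⟧) (hG : G ∈ S) : ∃ H ∈ S, U (t ^ 2 * G) = 4 * (t * H) := by
  refine ⟨U ((1 + t) * G), U_mem _ (S.mul_mem (S.add_mem S.one_mem t_mem) hG), ?_⟩
  rw [U_t_sq_mul]; ring

/-- `U(t G) = 2 t G'` -/
lemma U_t_mul (G : ℤ⟦X⟧) (hG : G ∈ S) : ∃ H ∈ S, U (t * G) = 2 * (t * H) := by
  obtain ⟨n, G', hG', rfl⟩ := S_split G hG
  obtain ⟨H, hH, e⟩ := U_tt G' hG'
  refine ⟨n + 2 * H, S.add_mem (int_mem n) (S.mul_mem (ofNat_mem' 2) hH), ?_⟩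
  have : t * (n + t * G') = (n : ℤ⟦X⟧) * t + t ^ 2 * G' := by ring
  rw [this, map_add, U_int_mul, U_t, e]
  ring

/-- `U(t^2) = 4t + 8t^2` -/
lemma U_t_two : U (t ^ 2) = 4 * t + 8 * t ^ 2 := by
  have := U_t_sq_mul 1
  rw [mul_one, mul_one, map_add, U_one, U_t] at this
  rw [this]; ring

/-- `U(t^3 G) = 8 t^2 G'` -/
lemma U_ttt (G : ℤ⟦X⟧) (hG : G ∈ S) : ∃ H ∈ S, U (t ^ 3 * G) = 8 * (t ^ 2 * H) := by
  obtain ⟨H, hH, e⟩ := U_t_mul ((1 + t) * G) (S.mul_mem (S.add_mem S.one_mem t_mem) hG)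
  refine ⟨H, hH, ?_⟩
  have e1 : t ^ 3 * G = t ^ 2 * (t * G) := by ring
  have e2 : (1 + t) * (t * G) = t * ((1 + t) * G) := by ring
  rw [e1, U_t_sq_mul, e2, e]
  ring

lemma U_s_tt (G : ℤ⟦X⟧) : U (s * (t ^ 2 * G)) = 4 * t * U (s * ((1 + t) * G)) := by
  have e1 : s * (t ^ 2 * G) = t ^ 2 * (s * G) := by ring
  have e2 : (1 + t) * (s * G) = s * ((1 + t) * G) := by ring
  rw [e1, U_t_sq_mul, e2]

/-- `U(s t G) = 4 s t G'` -/
lemma U_s_t_mul (G : ℤ⟦X⟧) (hG : G ∈ S) : ∃ H ∈ S, U (s * (t * G)) = 4 * (s * (t * H)) := by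
  obtain ⟨n, G', hG', rfl⟩ := S_split G hG
  obtain ⟨H, hH, e⟩ := U_s_mem ((1 + t) * G') (S.mul_mem (S.add_mem S.one_mem t_mem) hG')
  refine ⟨n + H, S.add_mem (int_mem n) hH, ?_⟩
  have : s * (t * (n + t * G')) = (n : ℤ⟦X⟧) * (s * t) + s * (t ^ 2 * G') := by ring
  rw [this, map_add, U_int_mul, U_st, U_s_tt, e]
  ring

/-- `U(s (n + t G)) = s (n + 4 t G')` -/
lemma U_s_const (n : ℤ) (G : ℤ⟦X⟧) (hG : G ∈ S) :
    ∃ H ∈ S, U (s * (n + t * G)) = s * (n + 4 * (t * H)) := by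
  obtain ⟨H, hH, e⟩ := U_s_t_mul G hG
  refine ⟨H, hH, ?_⟩
  have : s * (n + t * G) = (n : ℤ⟦X⟧) * s + s * (t * G) := by ring
  rw [this, map_add, U_int_mul, U_s, e]
  ring

/-- `U(s (n t + m t^2 + t^3 G)) = s (4 (n + m) t + 16 t^2 G')` -/
lemma U_s_two (n m : ℤ) (G : ℤ⟦X⟧) (hG : G ∈ S) :
    ∃ H ∈ S, U (s * (n * t + m * t ^ 2 + t ^ 3 * G))
      = s * (4 * (n + m) * t + 16 * (t ^ 2 * H)) := by
  obtain ⟨H, hH, e⟩ := U_s_const m (m + (1 + t) * G)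
    (S.add_mem (int_mem m) (S.mul_mem (S.add_mem S.one_mem t_mem) hG))
  refine ⟨H, hH, ?_⟩
  have : s * (n * t + m * t ^ 2 + t ^ 3 * G) = (n : ℤ⟦X⟧) * (s * t) + s * (t ^ 2 * (m + t * G)) := by ring
  rw [this, map_add, U_int_mul, U_st, U_s_tt]
  have e2 : (1 + t) * ((m : ℤ⟦X⟧) + t * G) = m + t * (m + (1 + t) * G) := by ring
  rw [e2, e]
  ring

/-- `(1+t)^k = 1 + k t + t^2 K` -/
lemma one_add_t_pow (k : ℕ) : ∃ K ∈ S, (1 + t) ^ k = 1 + (k : ℤ) * t + t ^ 2 * K := by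
  induction k with
  | zero => exact ⟨0, S.zero_mem, by simp⟩
  | succ k ih =>
    obtain ⟨K, hK, e⟩ := ih
    refine ⟨(k : ℤ) + (1 + t) * K, S.add_mem (int_mem _) (S.mul_mem (S.add_mem S.one_mem t_mem) hK), ?_⟩
    rw [pow_succ, e]
    push_cast
    ring

/-- `c_j = U((1+t)^j)` -/
noncomputable def ch (j : ℕ) : ℤ⟦X⟧ := U ((1 + t) ^ j)

lemma ch_zero : ch 0 = 1 := by unfold ch; rw [pow_zero, U_one]

lemma ch_one : ch 1 = 1 + 2 * t := by unfold ch; rw [pow_one, map_add, U_one, U_t]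

lemma one_add_t_sq : (1 + t) ^ 2 = E (2 + 4 * t) * (1 + t) - 1 := by
  have h : E (2 + 4 * t) = 2 + 4 * E t := by
    rw [map_add, map_mul, map_ofNat, map_ofNat]
  rw [h]
  linear_combination t_sq

lemma ch_add_two (j : ℕ) : ch (j + 2) = (2 + 4 * t) * ch (j + 1) - ch j := by
  unfold ch
  have : (1 + t) ^ (j + 2) = E (2 + 4 * t) * (1 + t) ^ (j + 1) - (1 + t) ^ j := by
    rw [pow_add, one_add_t_sq]; ring
  rw [this, map_sub, U_E_mul]

lemma ch_mul (j i : ℕ) : 2 * ch j * ch (j + i) = ch (2 * j + i) + ch i := by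
  induction j using Nat.twoStepInduction generalizing i with
  | zero => rw [ch_zero]; simp only [mul_zero, zero_add]; ring
  | one =>
    have e1 : 2 * 1 + i = i + 2 := by ring
    have e2 : 1 + i = i + 1 := by ring
    rw [ch_one, e1, e2, ch_add_two]; ring
  | more j h0 h1 =>
    have a0 := h0 (i + 2)
    have a1 := h1 (i + 1)
    have r1 := ch_add_two j
    have r2 := ch_add_two (2 * j + i + 2)
    have r3 := ch_add_two i
    have e1 : j + (i + 2) = j + 2 + i := by ring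
    have e2 : 2 * j + (i + 2) = 2 * j + i + 2 := by ring
    have e3 : j + 1 + (i + 1) = j + 2 + i := by ring
    have e4 : 2 * (j + 1) + (i + 1) = 2 * j + i + 2 + 1 := by ring
    have e5 : 2 * (j + 2) + i = 2 * j + i + 2 + 2 := by ring
    rw [e1, e2] at a0
    rw [e3, e4] at a1
    rw [e5]
    linear_combination (2 * ch (j + 2 + i)) * r1 - r2 - r3 + (2 + 4 * t) * a1 - a0

lemma ch_two_mul (j : ℕ) : ch (2 * j) = 2 * ch j ^ 2 - 1 := by
  have := ch_mul j 0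
  rw [add_zero, add_zero, ch_zero] at this
  linear_combination -this

/-- `c_j = 1 + 2 j^2 t + 8 t^2 Z` -/
lemma ch_form (j : ℕ) : ∃ Z ∈ S, ch j = 1 + 2 * (j : ℤ) ^ 2 * t + 8 * (t ^ 2 * Z) := by
  induction j using Nat.twoStepInduction with
  | zero => exact ⟨0, S.zero_mem, by rw [ch_zero]; simp⟩
  | one => exact ⟨0, S.zero_mem, by rw [ch_one]; simp⟩
  | more j h0 h1 =>
    obtain ⟨Z0, hZ0, e0⟩ := h0
    obtain ⟨Z1, hZ1, e1⟩ := h1
    refine ⟨((j : ℤ) + 1) ^ 2 + (2 + 4 * t) * Z1 - Z0, ?_, ?_⟩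
    · refine S.sub_mem (S.add_mem (S.pow_mem (S.add_mem (int_mem _) S.one_mem) _) (S.mul_mem (S.add_mem (ofNat_mem' 2) (S.mul_mem (ofNat_mem' 4) t_mem)) hZ1)) hZ0
    · rw [ch_add_two, e0, e1]
      push_cast
      ring

end Pool.Agent.Lib.MP_918176_nt
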