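import Pool.Agent.Lib.MP_918176_nt.EvenCase

set_option autoImplicit false

namespace Pool.Agent.Lib.MP_918176_nt

open PowerSeries Filter
open scoped PowerSeries.WithPiTopology

lemma T_odd_even (l : ℕ) (G : ℤ⟦X⟧) : T (2 * l + 1) G = U (s * ((1 + t) ^ l * G)) := by
  rw [T_apply, pow_succ, pow_mul, s_sq]
  congr 1; ring

lemma T_odd_odd (l : ℕ) (G : ℤ⟦X⟧) : T (2 * l + 1) (s * G) = U ((1 + t) ^ (l + 1) * G) := by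
  rw [T_apply]
  have : s ^ (2 * l + 1) * (s * G) = (s ^ 2) ^ (l + 1) * G := by ring
  rw [this, s_sq]

/-- `T : t S → 4 s t S` -/
lemma T_odd_t (l : ℕ) (G : ℤ⟦X⟧) (hG : G ∈ S) :
    ∃ H ∈ S, T (2 * l + 1) (t * G) = 4 * (s * (t * H)) := by
  have h1 : (1 + t) ^ l * G ∈ S := S.mul_mem (S.pow_mem (S.add_mem S.one_mem t_mem) _) hG
  obtain ⟨H, hH, e⟩ := U_s_t_mul _ h1
  refine ⟨H, hH, ?_⟩
  rw [T_odd_even, ← e]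
  congr 1; ring

/-- `T : s t S → 2 t S` -/
lemma T_odd_st (l : ℕ) (G : ℤ⟦X⟧) (hG : G ∈ S) :
    ∃ H ∈ S, T (2 * l + 1) (s * (t * G)) = 2 * (t * H) := by
  have h1 : (1 + t) ^ (l + 1) * G ∈ S := S.mul_mem (S.pow_mem (S.add_mem S.one_mem t_mem) _) hG
  obtain ⟨H, hH, e⟩ := U_t_mul _ h1
  refine ⟨H, hH, ?_⟩
  rw [T_odd_odd, ← e]
  congr 1; ring

/-- coarse bound along the iteration -/
lemma T_odd_iter_coarse (l q : ℕ) (a : ℤ) (G : ℤ⟦X⟧) (hG : G ∈ S) :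
    ∀ r : ℕ, ∃ H : ℤ⟦X⟧, (H ∈ S ∨ ∃ H' ∈ S, H = s * H') ∧
      ((T (2 * l + 1)) ^ r) ((a : ℤ⟦X⟧) * (2 ^ q * (t * G))) = (a : ℤ⟦X⟧) * (2 ^ (q + r) * (t * H)) := by
  intro r
  induction r with
  | zero => exact ⟨G, Or.inl hG, by simp⟩
  | succ r ih =>
    obtain ⟨H, hH, e⟩ := ih
    rcases hH with hH | ⟨H', hH', rfl⟩
    · obtain ⟨K, hK, e2⟩ := T_odd_t l H hH
      refine ⟨s * (2 * K), Or.inr ⟨2 * K, S.mul_mem (ofNat_mem' 2) hK, rfl⟩, ?_⟩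
      rw [pow_succ', Module.End.mul_apply, e, T_zsmul']
      have : (2 : ℤ⟦X⟧) ^ (q + r) * (t * H) = ((2 ^ (q + r) : ℤ) : ℤ⟦X⟧) * (t * H) := by push_cast; ring
      rw [this, T_zsmul', e2]
      push_cast
      ring
    · obtain ⟨K, hK, e2⟩ := T_odd_st l H' hH'
      refine ⟨K, Or.inl hK, ?_⟩
      rw [pow_succ', Module.End.mul_apply, e, T_zsmul']
      have : (2 : ℤ⟦X⟧) ^ (q + r) * (t * (s * H')) = ((2 ^ (q + r) : ℤ) : ℤ⟦X⟧) * (s * (t * H')) := by push_cast; ring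
      rw [this, T_zsmul', e2]
      push_cast
      ring

/-- `T 1 = s W`, `W = 1 + 4 C t + 16 t^2 W_2` with `2 C = l (l + 1)`. -/
lemma T_odd_one (l : ℕ) : ∃ c2 : ℤ, 2 * c2 = (l : ℤ) * (l + 1) ∧ ∃ W ∈ S,
    T (2 * l + 1) 1 = s * (1 + 4 * (c2 : ℤ⟦X⟧) * t + 16 * (t ^ 2 * W)) := by
  -- (1+t)^l = 1 + l t + b t^2 + t^3 K with 2b = l(l-1)
  have hpow : ∃ b : ℤ, 2 * b = (l : ℤ) * (l - 1) ∧ ∃ K ∈ S,
      (1 + t) ^ l = 1 + (((l : ℤ) : ℤ⟦X⟧) * t + (b : ℤ⟦X⟧) * t ^ 2 + t ^ 3 * K) := by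
    induction l with
    | zero => exact ⟨0, by simp, 0, S.zero_mem, by simp⟩
    | succ l ih =>
      obtain ⟨b, hb, K, hK, e⟩ := ih
      refine ⟨b + l, ?_, (b : ℤ⟦X⟧) + (1 + t) * K, S.add_mem (int_mem b) (S.mul_mem (S.add_mem S.one_mem t_mem) hK), ?_⟩
      · push_cast; linear_combination hb
      · rw [pow_succ, e]; push_cast; ring
  obtain ⟨b, hb, K, hK, e⟩ := hpow
  obtain ⟨H, hH, e2⟩ := U_s_two l b K hK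
  refine ⟨l + b, by linear_combination hb, H, hH, ?_⟩
  rw [T_odd_even, mul_one, e, mul_add, map_add, mul_one, U_s, e2]
  push_cast
  ring

/-- odd `m = 2l+1` with `l` even -/
lemma D_odd_one (l : ℕ) (hl : Even l) : ∃ n : ℤ, Odd n ∧ ∃ G ∈ S,
    T (2 * l + 1) (T (2 * l + 1) 1) - 1 = 2 * (n * t + 2 * (t ^ 2 * G)) := by
  obtain ⟨c2, hc2, W, hW, e⟩ := T_odd_one l
  obtain ⟨K, hK, eK⟩ := one_add_t_pow (l + 1)
  have hmem : (1 + t) * (4 * (c2 : ℤ⟦X⟧) * (((l + 1 : ℕ) : ℤ) + t * K) + K + 16 * ((1 + t) ^ (l + 1) * W)) ∈ S := by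
    refine S.mul_mem (S.add_mem S.one_mem t_mem) (S.add_mem (S.add_mem (S.mul_mem (S.mul_mem (ofNat_mem' 4) (int_mem c2)) (S.add_mem (int_mem _) (S.mul_mem t_mem hK))) hK) (S.mul_mem (ofNat_mem' 16) (S.mul_mem (S.pow_mem (S.add_mem S.one_mem t_mem) _) hW)))
  obtain ⟨n1, G1, hG1, e1⟩ := S_split _ (U_mem _ hmem)
  refine ⟨(l + 1) + 4 * c2 + 2 * n1, ?_, G1, hG1, ?_⟩
  · obtain ⟨q, hq⟩ := hl
    refine ⟨q + 2 * c2 + n1, ?_⟩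
    rw [hq]; push_cast; ring
  · rw [e, T_odd_odd]
    have e3 : (1 + t) ^ (l + 1) * (1 + 4 * (c2 : ℤ⟦X⟧) * t + 16 * (t ^ 2 * W))
        = 1 + (((l + 1 : ℤ) + 4 * c2 : ℤ) : ℤ⟦X⟧) * t + t ^ 2 * (4 * (c2 : ℤ⟦X⟧) * (((l + 1 : ℕ) : ℤ) + t * K) + K + 16 * ((1 + t) ^ (l + 1) * W)) := by
      have : (1 + t) ^ (l + 1) * (1 + 4 * (c2 : ℤ⟦X⟧) * t) = (1 + (((l + 1 : ℕ) : ℤ) : ℤ⟦X⟧) * t + t ^ 2 * K) * (1 + 4 * (c2 : ℤ⟦X⟧) * t) := by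
        rw [eK]
      push_cast at this ⊢
      linear_combination this
    rw [e3, map_add, map_add, U_one, U_int_mul, U_t, U_t_sq_mul, e1]
    push_cast
    ring

/-- a divisibility statement for coefficients -/
lemma dvd_coeff_gen (m n N : ℕ) (H : ℤ⟦X⟧) :
    (2 : ℤ) ^ N ∣ coeff n (genSeries m * (((2 ^ N : ℤ) : ℤ⟦X⟧) * H)) := by
  have h2C : ∀ (x : ℤ), ((x : ℤ) : ℤ⟦X⟧) = (C x : ℤ⟦X⟧) := fun x => by simp
  have : genSeries m * (((2 ^ N : ℤ) : ℤ⟦X⟧) * H) = C (2 ^ N : ℤ) * (genSeries m * H) := by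
    rw [h2C]; ring
  rw [this, coeff_C_mul]
  exact dvd_mul_right _ _

lemma coeff_gen_odd (m n : ℕ) (hn : Odd n) (N : ℕ) (a : ℤ) (ha : Odd a) (G R : ℤ⟦X⟧)
    (hG : G = ((2 ^ N : ℤ) : ℤ⟦X⟧) * ((a : ℤ⟦X⟧) * u + 2 * R)) :
    ∃ z : ℤ, coeff n (genSeries m * G) = 2 ^ N * (2 * z + 1) := by
  obtain ⟨w, hw⟩ := ha
  obtain ⟨z, hz⟩ := coeff_gen_mul_u m n hn (2 ^ N) ((w : ℤ⟦X⟧) * u + R)
  refine ⟨z, ?_⟩
  rw [← hz, hG, hw]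
  congr 2
  have h2C : ∀ (x : ℤ), (C x : ℤ⟦X⟧) = ((x : ℤ) : ℤ⟦X⟧) := fun x => by simp
  rw [h2C, h2C]
  push_cast
  ring

/-- case `m = 2l+1`, `l` even: odd `n` -/
lemma odd_one_r0 (l n : ℕ) (hl : Even l) (hn : Odd n) :
    emultiplicity (2 : ℤ) (c (2 * l + 1) (4 * n) - c (2 * l + 1) n) = 3 := by
  obtain ⟨a, ha, G, hG, e⟩ := D_odd_one l hl
  have h := c_diff (2 * l + 1) 0 n
  rw [pow_zero, one_mul, pow_zero, Module.End.one_apply, e] at h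
  obtain ⟨z, hz⟩ := coeff_gen_odd (2 * l + 1) n hn 3 a ha (2 * (a * t + 2 * (t ^ 2 * G))) (4 * (u ^ 2 * G)) (by
    rw [t_eq]; push_cast; ring)
  rw [hz] at h
  exact emult_of_eq _ z 3 h

/-- case `m = 2l+1`, `l` even: even `n` -/
lemma odd_one_rpos (l r n : ℕ) (hl : Even l) :
    (2 : ℤ) ^ (r + 1 + 4) ∣ (c (2 * l + 1) (4 * (2 ^ (r + 1) * n)) - c (2 * l + 1) (2 ^ (r + 1) * n)) := by
  obtain ⟨a, ha, G, hG, e⟩ := D_odd_one l hl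
  rw [c_diff, e]
  have e2 : (2 : ℤ⟦X⟧) * (a * t + 2 * (t ^ 2 * G)) = ((2 : ℤ) : ℤ⟦X⟧) * (t * ((a : ℤ⟦X⟧) + 2 * (t * G))) := by
    push_cast; ring
  have hm : (a : ℤ⟦X⟧) + 2 * (t * G) ∈ S := S.add_mem (int_mem a) (S.mul_mem (ofNat_mem' 2) (S.mul_mem t_mem hG))
  obtain ⟨H1, hH1, e3⟩ := T_odd_t l _ hm
  obtain ⟨H2, hH2, e4⟩ := T_odd_st l H1 hH1
  rcases r with _ | r
  · rw [zero_add, pow_one, e2, T_zsmul', e3]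
    have : (((2 : ℤ) : ℤ⟦X⟧) * (4 * (s * (t * H1)))) = (((2 : ℤ) ^ (1 + 4) : ℤ) : ℤ⟦X⟧) * (s * (u * H1)) := by
      rw [t_eq]; push_cast; ring
    rw [this]
    exact dvd_coeff_gen _ _ _ _
  · have e5 : T (2 * l + 1) (T (2 * l + 1) (2 * (a * t + 2 * (t ^ 2 * G)))) = (1 : ℤ) * (2 ^ 4 * (t * H2)) := by
      rw [e2, T_zsmul', e3]
      have : (((2 : ℤ) : ℤ⟦X⟧) * (4 * (s * (t * H1)))) = ((8 : ℤ) : ℤ⟦X⟧) * (s * (t * H1)) := by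
        push_cast; ring
      rw [this, T_zsmul', e4]
      push_cast; ring
    obtain ⟨H, hH, e6⟩ := T_odd_iter_coarse l 4 1 H2 hH2 r
    rw [pow_add _ (r + 1) 1, pow_add _ r 1, pow_one, Module.End.mul_apply, Module.End.mul_apply, e5, e6]
    have : ((1 : ℤ) : ℤ⟦X⟧) * (2 ^ (4 + r) * (t * H)) = (((2 : ℤ) ^ (r + 1 + 1 + 4) : ℤ) : ℤ⟦X⟧) * (u * H) := by
      rw [t_eq]; push_cast; ring
    rw [this]
    exact dvd_coeff_gen _ _ _ _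

end Pool.Agent.Lib.MP_918176_nt
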