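import Pool.Agent.Lib.MP_918176_nt.ThreeCase

set_option autoImplicit false

namespace Pool.Agent.Lib.MP_918176_nt

lemma le_of_dvd_pow (z : ℤ) (N : ℕ) (h : (2 : ℤ) ^ N ∣ z) : (N : ℕ∞) ≤ emultiplicity (2 : ℤ) z :=
  le_emultiplicity_of_pow_dvd h

lemma eq_iff_of_form (z w : ℤ) (N : ℕ) (h : z = 2 ^ N * w) :
    ((N : ℕ∞) ≤ emultiplicity (2 : ℤ) z) ∧ (emultiplicity (2 : ℤ) z = N ↔ Odd w) := by
  refine ⟨le_of_dvd_pow z N ⟨w, h⟩, ?_⟩
  rw [emultiplicity_eq_coe]
  constructor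
  · rintro ⟨_, h2⟩
    rcases Int.even_or_odd w with ⟨v, hv⟩ | ho
    · exfalso
      apply h2
      exact ⟨v, by rw [h, hv]; ring⟩
    · exact ho
  · intro ho
    refine ⟨⟨w, h⟩, ?_⟩
    rintro ⟨v, hv⟩
    rw [h, pow_succ, mul_assoc] at hv
    have := mul_left_cancel₀ (by positivity : (2 : ℤ) ^ N ≠ 0) hv
    obtain ⟨q, hq⟩ := ho
    omega

lemma one_all (k n : ℕ) (hn : 1 ≤ n) :
    emultiplicity 2 n + 3 ≤ emultiplicity (2 : ℤ) (c (4 * k + 1) (4 * n) - c (4 * k + 1) n) ∧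
      (emultiplicity (2 : ℤ) (c (4 * k + 1) (4 * n) - c (4 * k + 1) n) = emultiplicity 2 n + 3 ↔ Odd n) := by
  have hm : 4 * k + 1 = 2 * (2 * k) + 1 := by ring
  rw [hm]
  have hl : Even (2 * k) := even_two_mul k
  obtain ⟨r, n', hn', rfl⟩ := Nat.exists_eq_two_pow_mul_odd (n := n) (by omega)
  rw [emult_two_pow_mul r n' hn']
  rcases r with _ | r
  · have h0 := odd_one_r0 (2 * k) n' hl hn'
    rw [pow_zero, one_mul, h0]
    simp [hn']
  · have h1 := le_of_dvd_pow _ _ (odd_one_rpos (2 * k) r n' hl)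
    have h2 : (((r + 1 : ℕ) : ℕ∞) + 3) < ((r + 1 + 4 : ℕ) : ℕ∞) := by
      have : ((r + 1 : ℕ) : ℕ∞) + 3 = ((r + 1 + 3 : ℕ) : ℕ∞) := by push_cast; ring
      rw [this]
      exact_mod_cast (by omega : r + 1 + 3 < r + 1 + 4)
    refine ⟨h2.le.trans h1, ?_⟩
    constructor
    · intro h
      exfalso
      rw [h] at h1
      exact absurd h1 (not_le.mpr h2)
    · intro h
      exfalso
      have : Even (2 ^ (r + 1) * n') := by
        rw [pow_succ, mul_assoc, mul_comm, mul_assoc]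
        exact even_two_mul _
      exact (Nat.not_even_iff_odd.mpr h) this

lemma three_all (k n : ℕ) (hn : 1 ≤ n) :
    emultiplicity 2 n + 6 ≤ emultiplicity (2 : ℤ) (c (4 * k + 3) (4 * n) - c (4 * k + 3) n) ∧
      (emultiplicity (2 : ℤ) (c (4 * k + 3) (4 * n) - c (4 * k + 3) n) = emultiplicity 2 n + 6 ↔
        ((k % 4 = 0 ∨ k % 4 = 1) ∧ Odd n) ∨
          (k % 2 = 0 ∧ (emultiplicity 2 n = 1 ∨ emultiplicity 2 n = 2))) := by
  obtain ⟨i0, i1, i2, i3⟩ := three_info k
  obtain ⟨r, n', hn', rfl⟩ := Nat.exists_eq_two_pow_mul_odd (n := n) (by omega)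
  rw [emult_two_pow_mul r n' hn']
  have heven : ∀ q : ℕ, ¬ Odd (2 ^ (q + 1) * n') := by
    intro q h
    have : Even (2 ^ (q + 1) * n') := by
      rw [pow_succ, mul_assoc, mul_comm, mul_assoc]
      exact even_two_mul _
    exact (Nat.not_even_iff_odd.mpr h) this
  rcases r with _ | _ | _ | r
  · obtain ⟨z, hz, e⟩ := i0 n' hn'
    obtain ⟨h1, h2⟩ := eq_iff_of_form _ z 6 e
    rw [pow_zero, one_mul]
    have e6 : ((0 : ℕ) : ℕ∞) + 6 = ((6 : ℕ) : ℕ∞) := by simp
    rw [e6]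
    refine ⟨h1, ?_⟩
    rw [h2, hz]
    simp [hn']
  · obtain ⟨z, hz, e⟩ := i1 n' hn'
    obtain ⟨h1, h2⟩ := eq_iff_of_form _ z 7 e
    rw [zero_add]
    have e6 : ((1 : ℕ) : ℕ∞) + 6 = ((7 : ℕ) : ℕ∞) := by norm_num
    rw [e6]
    refine ⟨h1, ?_⟩
    rw [h2, hz]
    have h3 := heven 0
    rw [zero_add] at h3
    constructor
    · intro h; exact Or.inr ⟨h, Or.inl rfl⟩
    · rintro (⟨_, h⟩ | ⟨h, _⟩)
      · exact absurd h h3
      · exact h
  · obtain ⟨z, hz, e⟩ := i2 n' hn'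
    obtain ⟨h1, h2⟩ := eq_iff_of_form _ z 8 e
    have e6 : ((0 + 1 + 1 : ℕ) : ℕ∞) + 6 = ((8 : ℕ) : ℕ∞) := by norm_num
    rw [e6]
    refine ⟨h1, ?_⟩
    have e22 : (0 + 1 + 1 : ℕ) = 2 := by norm_num
    rw [e22, h2, hz]
    have h3 := heven 1
    have e23 : (1 + 1 : ℕ) = 2 := by norm_num
    rw [e23] at h3
    constructor
    · intro h; exact Or.inr ⟨h, Or.inr rfl⟩
    · rintro (⟨_, h⟩ | ⟨h, _⟩)
      · exact absurd h h3
      · exact h
  · have h1 := le_of_dvd_pow _ _ (i3 r n')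
    have e3 : r + 1 + 1 + 1 = r + 3 := by ring
    rw [e3]
    have h2 : (((r + 3 : ℕ) : ℕ∞) + 6) < ((r + 3 + 8 : ℕ) : ℕ∞) := by
      have : ((r + 3 : ℕ) : ℕ∞) + 6 = ((r + 3 + 6 : ℕ) : ℕ∞) := by push_cast; ring
      rw [this]
      exact_mod_cast (by omega : r + 3 + 6 < r + 3 + 8)
    refine ⟨h2.le.trans h1, ?_⟩
    constructor
    · intro h
      exfalso
      rw [h] at h1
      exact absurd h1 (not_le.mpr h2)
    · intro h
      exfalso
      rcases h with ⟨_, h⟩ | ⟨_, h | h⟩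
      · exact heven (r + 2) h
      · have : r + 3 = 1 := by exact_mod_cast h
        omega
      · have : r + 3 = 2 := by exact_mod_cast h
        omega


/-- Question Q2 decided. The two inequalities hold for all `k ≥ 0`, `n ≥ 1`; equality in the first
holds exactly for odd `n`, and equality in the second holds exactly in the cases listed; hence
equality in the first holds for infinitely many `n` for every `k`, but equality in the second holds
for infinitely many `n` if and only if `k` is not congruent to `3` mod `4` (so Q2 fails, first for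
`k = 3`, i.e. for `c_15`).
Here `emultiplicity 2 a : ℕ∞` is the 2-adic valuation, with value `⊤` at `a = 0`. -/
theorem odd_decision :
    (∀ k n : ℕ, 1 ≤ n →
      emultiplicity 2 n + 3 ≤ emultiplicity (2 : ℤ) (c (4 * k + 1) (4 * n) - c (4 * k + 1) n) ∧
      (emultiplicity (2 : ℤ) (c (4 * k + 1) (4 * n) - c (4 * k + 1) n) = emultiplicity 2 n + 3 ↔
        Odd n)) ∧
    (∀ k n : ℕ, 1 ≤ n →
      emultiplicity 2 n + 6 ≤ emultiplicity (2 : ℤ) (c (4 * k + 3) (4 * n) - c (4 * k + 3) n) ∧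
      (emultiplicity (2 : ℤ) (c (4 * k + 3) (4 * n) - c (4 * k + 3) n) = emultiplicity 2 n + 6 ↔
        ((k % 4 = 0 ∨ k % 4 = 1) ∧ Odd n) ∨
          (k % 2 = 0 ∧ (emultiplicity 2 n = 1 ∨ emultiplicity 2 n = 2)))) ∧
    (∀ k : ℕ, {n : ℕ | 1 ≤ n ∧
      emultiplicity (2 : ℤ) (c (4 * k + 1) (4 * n) - c (4 * k + 1) n)
        = emultiplicity 2 n + 3}.Infinite) ∧
    (∀ k : ℕ, {n : ℕ | 1 ≤ n ∧
      emultiplicity (2 : ℤ) (c (4 * k + 3) (4 * n) - c (4 * k + 3) n)
        = emultiplicity 2 n + 6}.Infinite ↔ k % 4 ≠ 3) := by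
  have hodd : ∀ q : ℕ, Odd (2 * q + 1) := fun q => ⟨q, rfl⟩
  refine ⟨one_all, three_all, ?_, ?_⟩
  · intro k
    apply Set.infinite_of_injective_forall_mem (f := fun q : ℕ => 2 * q + 1)
    · intro a b h
      simp only at h
      omega
    · intro q
      exact ⟨by omega, (one_all k _ (by omega)).2.mpr (hodd q)⟩
  · intro k
    constructor
    · intro h hk
      have hempty : {n : ℕ | 1 ≤ n ∧
          emultiplicity (2 : ℤ) (c (4 * k + 3) (4 * n) - c (4 * k + 3) n)
            = emultiplicity 2 n + 6} = ∅ := by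
        ext n
        constructor
        · rintro ⟨hn, he⟩
          exfalso
          rcases (three_all k n hn).2.mp he with ⟨h | h, _⟩ | ⟨h, _⟩ <;> omega
        · intro h; exact absurd h (Set.notMem_empty n)
      rw [hempty] at h
      exact Set.not_infinite.mpr Set.finite_empty h
    · intro hk
      by_cases h : k % 4 = 0 ∨ k % 4 = 1
      · apply Set.infinite_of_injective_forall_mem (f := fun q : ℕ => 2 * q + 1)
        · intro a b h
          simp only at h
          omega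
        · intro q
          exact ⟨by omega, (three_all k _ (by omega)).2.mpr (Or.inl ⟨h, hodd q⟩)⟩
      · have h2 : k % 2 = 0 := by omega
        apply Set.infinite_of_injective_forall_mem (f := fun q : ℕ => 2 ^ 1 * (2 * q + 1))
        · intro a b h
          simp only at h
          omega
        · intro q
          refine ⟨by omega, (three_all k _ (by omega)).2.mpr (Or.inr ⟨h2, Or.inl ?_⟩)⟩
          rw [emult_two_pow_mul 1 _ (hodd q)]
          rfl


end Pool.Agent.Lib.MP_918176_nt
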