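import Pool.Agent.Lib.MP_918176_nt.Basic

set_option autoImplicit false

namespace Pool.Agent.Lib.MP_918176_nt

open PowerSeries Filter
open scoped PowerSeries.WithPiTopology

/-- the even section `∑ a_n x^n ↦ ∑ a_{2n} x^n` -/
noncomputable def U : ℤ⟦X⟧ →ₗ[ℤ] ℤ⟦X⟧ where
  toFun f := PowerSeries.mk fun n => coeff (2 * n) f
  map_add' f g := by ext n; simp
  map_smul' r f := by ext n; simp only [coeff_mk, map_smul, RingHom.id_apply, smul_eq_mul]

lemma coeff_U (f : ℤ⟦X⟧) (n : ℕ) : coeff n (U f) = coeff (2 * n) f := by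
  simp [U]

lemma U_E_mul (f g : ℤ⟦X⟧) : U (E f * g) = f * U g := by
  ext n
  rw [coeff_U, coeff_mul, coeff_mul]
  symm
  apply Finset.sum_of_injOn (fun p : ℕ × ℕ => (2 * p.1, 2 * p.2))
  · intro p _ q _ h
    simp only [Prod.mk.injEq] at h
    ext <;> omega
  · intro p hp
    rw [Finset.mem_coe, Finset.HasAntidiagonal.mem_antidiagonal] at hp ⊢
    simp only
    omega
  · intro p hp hp2
    rw [coeff_E]
    split_ifs with h
    · exfalso
      apply hp2
      rw [Finset.HasAntidiagonal.mem_antidiagonal] at hp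
      obtain ⟨a, ha⟩ := h
      refine ⟨(a, p.2 / 2), ?_, ?_⟩
      · rw [Finset.mem_coe, Finset.HasAntidiagonal.mem_antidiagonal]
        simp only
        omega
      · ext
        · simp [ha]
        · simp; omega
    · simp
  · intro p hp
    rw [coeff_U, coeff_E]
    simp

lemma U_one : U 1 = 1 := by
  have : (1 : ℤ⟦X⟧) = E 1 * 1 := by simp
  ext n
  rw [coeff_U, coeff_one, coeff_one]
  simp

lemma U_E (f : ℤ⟦X⟧) : U (E f) = f := by
  have := U_E_mul f 1
  rw [mul_one, U_one, mul_one] at this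
  exact this

lemma U_X : U (X : ℤ⟦X⟧) = 0 := by
  ext n
  rw [coeff_U, coeff_X, if_neg (by omega)]
  simp

lemma U_E_mul_X (f : ℤ⟦X⟧) : U (E f * X) = 0 := by
  rw [U_E_mul, U_X, mul_zero]

/-- `t = 4x/(1-x)^2` -/
noncomputable def t : ℤ⟦X⟧ := 4 * (X * A 0 ^ 2)

lemma A0_mul : (1 - X) * A 0 = 1 := by
  have := A_mul 0
  simpa using this

lemma A0_eq : A 0 = (1 + X) * A 1 := by
  symm
  apply A_unique
  have := A_mul 1
  simp only [pow_zero, pow_one] at this ⊢
  linear_combination this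

lemma s_sq : s ^ 2 = 1 + t := by
  unfold s t
  have := A0_mul
  linear_combination (1 + (1-X) * A 0) * this

lemma E_t : E t = 4 * (X ^ 2 * A 1 ^ 2) := by
  unfold t
  rw [map_mul, map_mul, map_pow, E_X, E_A, map_ofNat]

lemma t_sq : t ^ 2 = 4 * E t * (1 + t) := by
  rw [E_t, ← s_sq]
  unfold t s
  have := A0_eq
  calc (4 * (X * A 0 ^ 2)) ^ 2 = 16 * X ^ 2 * A 0 ^ 2 * (A 0) ^ 2 := by ring
    _ = 16 * X ^ 2 * A 0 ^ 2 * ((1 + X) * A 1) ^ 2 := by rw [← this]
    _ = _ := by ring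

lemma U_t : U t = 2 * t := by
  have h : t = E (A 0 ^ 2 * (4 * (1 + X))) * X + E (A 0 ^ 2 * (8 * X)) := by
    simp only [map_mul, map_pow, map_add, E_X, E_A, map_one, map_ofNat]
    unfold t
    have := A0_eq
    conv_lhs => rw [this]
    ring
  conv_lhs => rw [h]
  rw [map_add, U_E_mul_X, U_E]
  unfold t
  ring

lemma U_s : U s = s := by
  have h : s = E (A 0 * (1 + X)) + E (A 0 * 2) * X := by
    simp only [map_mul, map_add, E_X, E_A, map_one, map_ofNat]
    unfold s
    have := A0_eq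
    conv_lhs => rw [this]
    ring
  conv_lhs => rw [h]
  rw [map_add, U_E_mul_X, U_E]
  unfold s
  ring

lemma U_st : U (s * t) = 4 * (s * t) := by
  have h : s * t = E (A 0 ^ 3 * (4 * (1 + 6 * X + X ^ 2))) * X + E (A 0 ^ 3 * (4 * (4 * X + 4 * X ^ 2))) := by
    simp only [map_mul, map_pow, map_add, E_X, E_A, map_one, map_ofNat]
    unfold s t
    have := A0_eq
    conv_lhs => rw [this]
    ring
  conv_lhs => rw [h]
  rw [map_add, U_E_mul_X, U_E]
  unfold s t
  ring

/-- key recursion -/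
lemma U_t_sq_mul (g : ℤ⟦X⟧) : U (t ^ 2 * g) = 4 * t * U ((1 + t) * g) := by
  have h1 : t ^ 2 * g = E (4 * t) * ((1 + t) * g) := by
    rw [t_sq, map_mul, map_ofNat]; ring
  rw [h1, U_E_mul]

/-- the operator `G ↦ U(s^m G)` -/
noncomputable def T (m : ℕ) : ℤ⟦X⟧ →ₗ[ℤ] ℤ⟦X⟧ where
  toFun g := U (s ^ m * g)
  map_add' f g := by rw [mul_add, map_add]
  map_smul' r f := by rw [mul_smul_comm, map_smul, RingHom.id_apply]

lemma T_apply (m : ℕ) (g : ℤ⟦X⟧) : T m g = U (s ^ m * g) := rfl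

lemma U_gen_mul (m : ℕ) (g : ℤ⟦X⟧) : U (genSeries m * g) = genSeries m * T m g := by
  have h : genSeries m * g = E (genSeries m) * (s ^ m * g) := by
    conv_lhs => rw [genSeries_functional]
    ring
  rw [h, U_E_mul, T_apply]

lemma U_iter_gen (m r : ℕ) (g : ℤ⟦X⟧) :
    (U ^ r) (genSeries m * g) = genSeries m * ((T m) ^ r) g := by
  induction r generalizing g with
  | zero => simp
  | succ r ih =>
    rw [pow_succ, pow_succ, Module.End.mul_apply, U_gen_mul, ih, Module.End.mul_apply]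

lemma coeff_U_iter (f : ℤ⟦X⟧) (r n : ℕ) : coeff n ((U ^ r) f) = coeff (2 ^ r * n) f := by
  induction r generalizing f with
  | zero => simp
  | succ r ih =>
    rw [pow_succ, Module.End.mul_apply, ih, coeff_U]
    have : 2 * (2 ^ r * n) = 2 ^ (r + 1) * n := by ring
    rw [this]

/-- main coefficient formula -/
lemma c_diff (m r n : ℕ) :
    c m (4 * (2 ^ r * n)) - c m (2 ^ r * n)
      = coeff n (genSeries m * ((T m) ^ r) ((T m) (T m 1) - 1)) := by
  have h1 : c m (2 ^ r * n) = coeff n (genSeries m * ((T m) ^ r) 1) := by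
    unfold c
    rw [← coeff_U_iter]
    have := U_iter_gen m r 1
    rw [mul_one] at this
    rw [this]
  have h2 : c m (4 * (2 ^ r * n)) = coeff n (genSeries m * ((T m) ^ r) ((T m) (T m 1))) := by
    unfold c
    have e : 4 * (2 ^ r * n) = 2 ^ (r + 2) * n := by ring
    rw [e, ← coeff_U_iter]
    have := U_iter_gen m (r + 2) 1
    rw [mul_one] at this
    rw [this, pow_add, Module.End.mul_apply, pow_two, Module.End.mul_apply]
  rw [h1, h2, map_sub, mul_sub, map_sub]

lemma constantCoeff_A (i : ℕ) : constantCoeff (A i) = 1 := by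
  unfold A
  simp [constantCoeff_invOfUnit]

lemma constantCoeff_gen (m : ℕ) : constantCoeff (genSeries m) = 1 := by
  rw [genSeries_eq, map_mul, map_pow, constantCoeff_A]
  rw [(multipliable_fac m).map_tprod _ (WithPiTopology.continuous_constantCoeff ℤ)]
  simp [constantCoeff_A]

lemma s_eq : s = 1 + 2 * (X * A 0) := by
  unfold s
  have := A0_mul
  linear_combination this

lemma s_pow_eq (m : ℕ) : ∃ R : ℤ⟦X⟧, s ^ m = 1 + 2 * R := by
  induction m with
  | zero => exact ⟨0, by simp⟩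
  | succ m ih =>
    obtain ⟨R, hR⟩ := ih
    refine ⟨R + X * A 0 + 2 * R * (X * A 0), ?_⟩
    rw [pow_succ, hR, s_eq]
    ring

lemma two_dvd_coeff_gen (m n : ℕ) (hn : 0 < n) : (2 : ℤ) ∣ coeff n (genSeries m) := by
  induction n using Nat.strong_induction_on with
  | _ n ih =>
    obtain ⟨R, hR⟩ := s_pow_eq m
    rw [genSeries_functional, hR]
    have e : (1 + 2 * R) * E (genSeries m) = E (genSeries m) + 2 * (R * E (genSeries m)) := by ring
    rw [e, map_add]
    apply dvd_add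
    · rw [coeff_E]
      split_ifs with h
      · exact ih (n / 2) (by omega) (by omega)
      · exact dvd_zero _
    · have : (2 : ℤ⟦X⟧) = C (2 : ℤ) := by simp
      rw [this, coeff_C_mul]
      exact dvd_mul_right _ _

lemma gen_eq (m : ℕ) : ∃ R : ℤ⟦X⟧, genSeries m = 1 + 2 * R := by
  have h : ∀ n, ∃ r : ℤ, coeff n (genSeries m) - coeff n (1 : ℤ⟦X⟧) = 2 * r := by
    intro n
    rcases Nat.eq_zero_or_pos n with h0 | h0
    · subst h0
      refine ⟨0, ?_⟩
      simp [constantCoeff_gen]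
    · obtain ⟨r, hr⟩ := two_dvd_coeff_gen m n h0
      refine ⟨r, ?_⟩
      rw [coeff_one, if_neg (by omega), hr, sub_zero]
  choose r hr using h
  refine ⟨PowerSeries.mk r, ?_⟩
  ext n
  have : (2 : ℤ⟦X⟧) = C (2 : ℤ) := by simp
  rw [map_add, this, coeff_C_mul, coeff_mk, ← hr]
  ring

/-- `x/(1-x)^2` -/
noncomputable def u : ℤ⟦X⟧ := X * A 0 ^ 2

lemma t_eq : t = 4 * u := rfl

lemma coeff_u_odd (n : ℕ) : coeff n u = n := by
  have hA : A 0 = PowerSeries.mk 1 := by
    symm
    apply A_unique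
    rw [pow_zero, pow_one, mul_comm]
    exact mk_one_mul_one_sub_eq_one ℤ
  have h2 : A 0 ^ 2 = PowerSeries.mk fun n => ((n : ℤ) + 1) := by
    rw [hA]
    have := mk_one_pow_eq_mk_choose_add ℤ 1
    rw [this]
    ext n
    simp [add_comm]
  unfold u
  rw [h2]
  rcases n with _ | n
  · simp
  · rw [coeff_succ_X_mul, coeff_mk]
    push_cast
    ring

/-- extraction of an odd-index coefficient -/
lemma coeff_gen_mul_u (m n : ℕ) (hn : Odd n) (a : ℤ) (R : ℤ⟦X⟧) :
    ∃ z : ℤ, coeff n (genSeries m * (C a * u + C (2 * a) * R)) = a * (2 * z + 1) := by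
  obtain ⟨Q, hQ⟩ := gen_eq m
  obtain ⟨k, hk⟩ := hn
  refine ⟨k + coeff n (Q * u) + coeff n (genSeries m * R), ?_⟩
  have e : genSeries m * (C a * u + C (2 * a) * R)
      = C a * u + C (2 * a) * (Q * u) + C (2 * a) * (genSeries m * R) := by
    have : (2 : ℤ⟦X⟧) = C (2 : ℤ) := by simp
    rw [this] at hQ
    rw [mul_add]
    conv_lhs => rw [hQ]
    conv_rhs => rw [hQ]
    rw [map_mul]
    ring
  rw [e, map_add, map_add, coeff_C_mul, coeff_C_mul, coeff_C_mul, coeff_u_odd, hk]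
  push_cast
  ring

end Pool.Agent.Lib.MP_918176_nt
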