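import Pool.Agent.Lib.MP_918176_nt.OddCase

set_option autoImplicit false

namespace Pool.Agent.Lib.MP_918176_nt

open PowerSeries Filter
open scoped PowerSeries.WithPiTopology

/-- shape of `T^2 1 - 1` for `m = 4k+3 = 2(2k+1)+1` -/
lemma D_odd_three (k : ℕ) : ∃ a : ℤ, (Odd a ↔ (k % 4 = 0 ∨ k % 4 = 1)) ∧ ∃ G ∈ S,
    T (2 * (2 * k + 1) + 1) (T (2 * (2 * k + 1) + 1) 1) - 1
      = 8 * (2 * (a : ℤ⟦X⟧) * t + t ^ 2 * ((((k : ℤ) + 1) ^ 4 : ℤ) + 4 * G)) := by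
  obtain ⟨c2, hc2, W, hW, e⟩ := T_odd_one (2 * k + 1)
  have hc : c2 = ((k : ℤ) + 1) * (2 * k + 1) := by
    push_cast at hc2
    linarith
  obtain ⟨K, hK, eK⟩ := one_add_t_pow (2 * k + 1 + 1)
  obtain ⟨Z, hZ, eZ⟩ := ch_form (k + 1)
  obtain ⟨H, hH, eH⟩ := U_ttt K hK
  obtain ⟨H', hH', eH'⟩ := U_tt ((1 + t) ^ (2 * k + 1 + 1) * W) (S.mul_mem (S.pow_mem (S.add_mem S.one_mem t_mem) _) hW)
  obtain ⟨n, G1, hG1, e1⟩ := S_split _ hH'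
  -- the value of U((1+t)^(2k+2) W)
  have hch : U ((1 + t) ^ (2 * k + 1 + 1)) = 2 * ch (k + 1) ^ 2 - 1 := by
    have : 2 * k + 1 + 1 = 2 * (k + 1) := by ring
    rw [this]
    exact ch_two_mul (k + 1)
  have h1 : (1 + t) ^ (2 * k + 1 + 1) * (1 + 4 * (c2 : ℤ⟦X⟧) * t + 16 * (t ^ 2 * W))
      = (1 + t) ^ (2 * k + 1 + 1)
        + ((4 * c2 : ℤ) : ℤ⟦X⟧) * (t + (((2 * k + 1 + 1 : ℕ) : ℤ) : ℤ⟦X⟧) * t ^ 2 + t ^ 3 * K)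
        + ((16 : ℤ) : ℤ⟦X⟧) * (t ^ 2 * ((1 + t) ^ (2 * k + 1 + 1) * W)) := by
    have : (1 + t) ^ (2 * k + 1 + 1) * (4 * (c2 : ℤ⟦X⟧) * t)
        = (1 + (((2 * k + 1 + 1 : ℕ) : ℤ) : ℤ⟦X⟧) * t + t ^ 2 * K) * (4 * (c2 : ℤ⟦X⟧) * t) := by
      rw [eK]
    push_cast at this ⊢
    linear_combination this
  have hT : T (2 * (2 * k + 1) + 1) (T (2 * (2 * k + 1) + 1) 1)
      = (2 * ch (k + 1) ^ 2 - 1)
        + ((4 * c2 : ℤ) : ℤ⟦X⟧) * (2 * t + (((2 * k + 1 + 1 : ℕ) : ℤ) : ℤ⟦X⟧) * (4 * t + 8 * t ^ 2) + 8 * (t ^ 2 * H))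
        + ((16 : ℤ) : ℤ⟦X⟧) * (4 * (t * (n + t * G1))) := by
    rw [e, T_odd_odd, h1, map_add, map_add, hch, U_int_mul, U_int_mul, map_add, map_add, U_t, U_int_mul,
      U_t_two, eH, eH', e1]
  refine ⟨4 * ((k : ℤ) + 1) ^ 3 - ((k : ℤ) + 1) * (k + 2) / 2 + 4 * n, ?_, ?_⟩
  · have hcases : k % 4 = 0 ∨ k % 4 = 1 ∨ k % 4 = 2 ∨ k % 4 = 3 := by omega
    have key : ∀ q : ℤ, ∀ i : ℤ, (k : ℤ) = 4 * q + i →
        ((k : ℤ) + 1) * (k + 2) = 2 * (8 * q ^ 2 + 4 * q * i + 6 * q) + (i + 1) * (i + 2) := by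
      intro q i h
      rw [h]; ring
    have hq : (k : ℤ) = 4 * ((k / 4 : ℕ) : ℤ) + ((k % 4 : ℕ) : ℤ) := by
      have := Nat.div_add_mod k 4
      exact_mod_cast this.symm
    set q : ℤ := ((k / 4 : ℕ) : ℤ) with hqdef
    rcases hcases with h | h | h | h
    · have := key q 0 (by rw [hq, h]; simp)
      rw [Int.odd_iff]
      simp only [h, true_or, iff_true]
      omega
    · have := key q 1 (by rw [hq, h]; simp)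
      rw [Int.odd_iff]
      simp only [h, or_true, iff_true]
      omega
    · have := key q 2 (by rw [hq, h]; simp)
      rw [Int.odd_iff]
      simp only [h]
      omega
    · have := key q 3 (by rw [hq, h]; simp)
      rw [Int.odd_iff]
      simp only [h]
      omega
  · have hdiv : 2 * (((k : ℤ) + 1) * (k + 2) / 2) = ((k : ℤ) + 1) * (k + 2) := by
      apply Int.mul_ediv_cancel'
      have := Int.even_mul_succ_self ((k : ℤ) + 1)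
      rw [add_assoc] at this
      exact this.two_dvd
    refine ⟨Z + 2 * ((((k : ℤ) + 1) ^ 2 : ℤ) : ℤ⟦X⟧) * (t * Z) + 4 * (t ^ 2 * Z ^ 2)
      + c2 * (((k : ℤ) : ℤ⟦X⟧) + 1) * 2 + c2 * H + 2 * G1, ?_, ?_⟩
    · refine S.add_mem (S.add_mem (S.add_mem (S.add_mem (S.add_mem hZ ?_) ?_) ?_) ?_) ?_
      · exact S.mul_mem (S.mul_mem (ofNat_mem' 2) (int_mem _)) (S.mul_mem t_mem hZ)
      · exact S.mul_mem (ofNat_mem' 4) (S.mul_mem (S.pow_mem t_mem _) (S.pow_mem hZ _))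
      · exact S.mul_mem (S.mul_mem (int_mem _) (S.add_mem (int_mem _) S.one_mem)) (ofNat_mem' 2)
      · exact S.mul_mem (int_mem _) hH
      · exact S.mul_mem (ofNat_mem' 2) hG1
    · have hdiv' : (2 : ℤ⟦X⟧) * ((((k : ℤ) + 1) * (k + 2) / 2 : ℤ) : ℤ⟦X⟧)
          = (((k : ℤ) : ℤ⟦X⟧) + 1) * (((k : ℤ) : ℤ⟦X⟧) + 2) := by
        have := congrArg (fun z : ℤ => (z : ℤ⟦X⟧)) hdiv
        push_cast at this ⊢
        exact this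
      rw [hT, eZ, hc]
      push_cast at hdiv' ⊢
      linear_combination (8 * t) * hdiv'

/-- step from even level to odd level -/
lemma T_three_step_A (k : ℕ) (a g : ℤ) (G : ℤ⟦X⟧) (hG : G ∈ S) :
    ∃ H ∈ S, T (2 * (2 * k + 1) + 1) (2 * (a : ℤ⟦X⟧) * t + t ^ 2 * ((g : ℤ⟦X⟧) + t * G))
      = s * (4 * ((g + 4 * a * (k + 1) : ℤ) : ℤ⟦X⟧) * t + 16 * (t ^ 2 * H)) := by
  obtain ⟨K, hK, eK⟩ := one_add_t_pow (2 * k + 1)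
  obtain ⟨H, hH, e⟩ := U_s_two (2 * a) (g + 2 * a * (2 * k + 1))
    (2 * (a : ℤ⟦X⟧) * K + (((2 * k + 1 : ℕ) : ℤ) : ℤ⟦X⟧) * g + t * K * g + (1 + t) ^ (2 * k + 1) * G) (by
      refine S.add_mem (S.add_mem (S.add_mem ?_ ?_) ?_) ?_
      · exact S.mul_mem (S.mul_mem (ofNat_mem' 2) (int_mem _)) hK
      · exact S.mul_mem (int_mem _) (int_mem _)
      · exact S.mul_mem (S.mul_mem t_mem hK) (int_mem _)
      · exact S.mul_mem (S.pow_mem (S.add_mem S.one_mem t_mem) _) hG)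
  refine ⟨H, hH, ?_⟩
  rw [T_odd_even]
  have e2 : (1 + t) ^ (2 * k + 1) * (2 * (a : ℤ⟦X⟧) * t + t ^ 2 * ((g : ℤ⟦X⟧) + t * G))
      = (((2 * a : ℤ)) : ℤ⟦X⟧) * t + ((g + 2 * a * (2 * k + 1) : ℤ) : ℤ⟦X⟧) * t ^ 2
        + t ^ 3 * (2 * (a : ℤ⟦X⟧) * K + (((2 * k + 1 : ℕ) : ℤ) : ℤ⟦X⟧) * g + t * K * g + (1 + t) ^ (2 * k + 1) * G) := by
    have : (1 + t) ^ (2 * k + 1) * (2 * (a : ℤ⟦X⟧) * t + t ^ 2 * (g : ℤ⟦X⟧))
        = (1 + (((2 * k + 1 : ℕ) : ℤ) : ℤ⟦X⟧) * t + t ^ 2 * K) * (2 * (a : ℤ⟦X⟧) * t + t ^ 2 * (g : ℤ⟦X⟧)) := by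
      rw [eK]
    push_cast at this ⊢
    linear_combination this
  rw [e2, e]
  push_cast
  ring

/-- step from odd level to even level -/
lemma T_three_step_B (k : ℕ) (b : ℤ) (H : ℤ⟦X⟧) (hH : H ∈ S) :
    ∃ n : ℤ, ∃ G ∈ S, T (2 * (2 * k + 1) + 1) (s * (4 * (b : ℤ⟦X⟧) * t + 16 * (t ^ 2 * H)))
      = 4 * (2 * ((b + 4 * n : ℤ) : ℤ⟦X⟧) * t + t ^ 2 * (8 * G)) := by
  obtain ⟨K, hK, eK⟩ := one_add_t_pow (2 * k + 1 + 1)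
  obtain ⟨H1, hH1, e1⟩ := U_ttt K hK
  obtain ⟨H2, hH2, e2⟩ := U_tt ((1 + t) ^ (2 * k + 1 + 1) * H) (S.mul_mem (S.pow_mem (S.add_mem S.one_mem t_mem) _) hH)
  obtain ⟨n, H3, hH3, e3⟩ := S_split _ hH2
  refine ⟨b * (k + 1) + 2 * n, 2 * (b : ℤ⟦X⟧) * (((k : ℤ) : ℤ⟦X⟧) + 1) + b * H1 + 2 * H3, ?_, ?_⟩
  · refine S.add_mem (S.add_mem ?_ ?_) ?_
    · exact S.mul_mem (S.mul_mem (ofNat_mem' 2) (int_mem _)) (S.add_mem (int_mem _) S.one_mem)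
    · exact S.mul_mem (int_mem _) hH1
    · exact S.mul_mem (ofNat_mem' 2) hH3
  · rw [T_odd_odd]
    have e4 : (1 + t) ^ (2 * k + 1 + 1) * (4 * (b : ℤ⟦X⟧) * t + 16 * (t ^ 2 * H))
        = ((4 * b : ℤ) : ℤ⟦X⟧) * (t + (((2 * k + 1 + 1 : ℕ) : ℤ) : ℤ⟦X⟧) * t ^ 2 + t ^ 3 * K)
          + ((16 : ℤ) : ℤ⟦X⟧) * (t ^ 2 * ((1 + t) ^ (2 * k + 1 + 1) * H)) := by
      have : (1 + t) ^ (2 * k + 1 + 1) * (4 * (b : ℤ⟦X⟧) * t)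
          = (1 + (((2 * k + 1 + 1 : ℕ) : ℤ) : ℤ⟦X⟧) * t + t ^ 2 * K) * (4 * (b : ℤ⟦X⟧) * t) := by
        rw [eK]
      push_cast at this ⊢
      linear_combination this
    rw [e4, map_add, U_int_mul, U_int_mul, map_add, map_add, U_t, U_int_mul, U_t_two, e1, e2, e3]
    push_cast
    ring

/-- all information on the difference for `m = 4k+3` -/
lemma three_info (k : ℕ) :
    (∀ n : ℕ, Odd n → ∃ z : ℤ, (Odd z ↔ (k % 4 = 0 ∨ k % 4 = 1)) ∧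
      c (4 * k + 3) (4 * n) - c (4 * k + 3) n = 2 ^ 6 * z) ∧
    (∀ n : ℕ, Odd n → ∃ z : ℤ, (Odd z ↔ k % 2 = 0) ∧
      c (4 * k + 3) (4 * (2 ^ 1 * n)) - c (4 * k + 3) (2 ^ 1 * n) = 2 ^ 7 * z) ∧
    (∀ n : ℕ, Odd n → ∃ z : ℤ, (Odd z ↔ k % 2 = 0) ∧
      c (4 * k + 3) (4 * (2 ^ 2 * n)) - c (4 * k + 3) (2 ^ 2 * n) = 2 ^ 8 * z) ∧
    (∀ r n : ℕ, (2 : ℤ) ^ (r + 3 + 8) ∣
      c (4 * k + 3) (4 * (2 ^ (r + 3) * n)) - c (4 * k + 3) (2 ^ (r + 3) * n)) := by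
  have hm : 4 * k + 3 = 2 * (2 * k + 1) + 1 := by ring
  rw [hm]
  set m := 2 * (2 * k + 1) + 1 with hmdef
  obtain ⟨a, ha, G, hG, eD⟩ := D_odd_three k
  rw [← hmdef] at eD
  obtain ⟨g0, G1, hG1, eG⟩ := S_split G hG
  obtain ⟨H, hH, eA⟩ := T_three_step_A k a (((k : ℤ) + 1) ^ 4 + 4 * g0) (4 * G1) (S.mul_mem (ofNat_mem' 4) hG1)
  rw [← hmdef] at eA
  set b : ℤ := ((k : ℤ) + 1) ^ 4 + 4 * g0 + 4 * a * (k + 1) with hb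
  obtain ⟨n2, G2, hG2, eB⟩ := T_three_step_B k b H hH
  rw [← hmdef] at eB
  have hbodd : Odd b ↔ k % 2 = 0 := by
    have h1 : Odd b ↔ Odd (((k : ℤ) + 1) ^ 4) := by
      have h2 : b = ((k : ℤ) + 1) ^ 4 + 2 * (2 * g0 + 2 * (a * (k + 1))) := by rw [hb]; ring
      rw [h2]
      generalize 2 * g0 + 2 * (a * ((k : ℤ) + 1)) = w
      generalize ((k : ℤ) + 1) ^ 4 = v
      rw [Int.odd_iff, Int.odd_iff]
      omega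
    rw [h1, Int.odd_pow' (by norm_num), Int.odd_iff]
    omega
  have hb'odd : Odd (b + 4 * n2) ↔ k % 2 = 0 := by
    rw [← hbodd, Int.odd_iff, Int.odd_iff]
    omega
  -- level 0
  have eD0 : T m (T m 1) - 1 = ((8 : ℤ) : ℤ⟦X⟧) * (2 * (a : ℤ⟦X⟧) * t + t ^ 2 * ((((((k : ℤ) + 1) ^ 4 + 4 * g0 : ℤ)) : ℤ⟦X⟧) + t * (4 * G1))) := by
    rw [eD, eG]; push_cast; ring
  -- level 1
  have eD1 : T m (T m (T m 1) - 1) = ((8 : ℤ) : ℤ⟦X⟧) * (s * (4 * (b : ℤ⟦X⟧) * t + 16 * (t ^ 2 * H))) := by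
    rw [eD0, T_zsmul', eA]
  have eD2 : T m (T m (T m (T m 1) - 1)) = ((8 : ℤ) : ℤ⟦X⟧) * (4 * (2 * ((b + 4 * n2 : ℤ) : ℤ⟦X⟧) * t + t ^ 2 * (8 * G2))) := by
    rw [eD1, T_zsmul', eB]
  -- general extraction
  have ext : ∀ (N : ℕ) (z0 : ℤ) (P : Prop) (n : ℕ) (F R : ℤ⟦X⟧), Odd n → (Odd z0 ↔ P) →
      F = ((2 ^ N : ℤ) : ℤ⟦X⟧) * ((z0 : ℤ⟦X⟧) * u + 2 * R) →
      ∃ z : ℤ, (Odd z ↔ P) ∧ coeff n (genSeries m * F) = 2 ^ N * z := by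
    intro N z0 P n F R hn hz0 hF
    rcases Int.even_or_odd z0 with h | h
    · obtain ⟨w, hw⟩ := h
      obtain ⟨v, hv⟩ := dvd_coeff_gen m n (N + 1) ((w : ℤ⟦X⟧) * u + R)
      refine ⟨2 * v, ?_, ?_⟩
      · rw [← hz0]
        constructor
        · intro h; exfalso; rw [Int.odd_iff] at h; omega
        · intro h; exfalso; rw [Int.odd_iff] at h; omega
      · have : F = ((2 ^ (N + 1) : ℤ) : ℤ⟦X⟧) * ((w : ℤ⟦X⟧) * u + R) := by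
          rw [hF, hw]; push_cast; ring
        rw [this, hv]; ring
    · obtain ⟨z, hz⟩ := coeff_gen_odd m n hn N z0 h F R hF
      refine ⟨2 * z + 1, ?_, hz⟩
      rw [← hz0]
      exact ⟨fun _ => h, fun _ => ⟨z, rfl⟩⟩
  refine ⟨?_, ?_, ?_, ?_⟩
  · intro n hn
    have h := c_diff m 0 n
    rw [pow_zero, one_mul, pow_zero, Module.End.one_apply, eD0] at h
    obtain ⟨z, hz, hz2⟩ := ext 6 a _ n _ (u ^ 2 * ((((((k : ℤ) + 1) ^ 4 + 4 * g0 : ℤ)) : ℤ⟦X⟧) + t * (4 * G1))) hn ha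
      (show ((8 : ℤ) : ℤ⟦X⟧) * (2 * (a : ℤ⟦X⟧) * t + t ^ 2 * ((((((k : ℤ) + 1) ^ 4 + 4 * g0 : ℤ)) : ℤ⟦X⟧) + t * (4 * G1))) = _ by
        rw [t_eq]; push_cast; ring)
    exact ⟨z, hz, by rw [h, hz2]⟩
  · intro n hn
    have h := c_diff m 1 n
    rw [pow_one (T m), eD1] at h
    obtain ⟨z, hz, hz2⟩ := ext 7 b _ n _ ((b : ℤ⟦X⟧) * (X * A 0) * u + 8 * (s * (u ^ 2 * H))) hn hbodd
      (show ((8 : ℤ) : ℤ⟦X⟧) * (s * (4 * (b : ℤ⟦X⟧) * t + 16 * (t ^ 2 * H))) = _ by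
        have hs := s_eq
        rw [t_eq]; push_cast
        linear_combination (128 * (b : ℤ⟦X⟧) * u) * hs)
    exact ⟨z, hz, by rw [h, hz2]⟩
  · intro n hn
    have h := c_diff m 2 n
    rw [pow_two (T m), Module.End.mul_apply, eD2] at h
    obtain ⟨z, hz, hz2⟩ := ext 8 (b + 4 * n2) _ n _ (8 * (u ^ 2 * G2)) hn hb'odd
      (show ((8 : ℤ) : ℤ⟦X⟧) * (4 * (2 * ((b + 4 * n2 : ℤ) : ℤ⟦X⟧) * t + t ^ 2 * (8 * G2))) = _ by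
        rw [t_eq]; push_cast; ring)
    exact ⟨z, hz, by rw [h, hz2]⟩
  · intro r n
    obtain ⟨g2, G3, hG3, eG2⟩ := S_split G2 hG2
    obtain ⟨H4, hH4, eA2⟩ := T_three_step_A k (b + 4 * n2) (8 * g2) (8 * G3) (S.mul_mem (ofNat_mem' 8) hG3)
    rw [← hmdef] at eA2
    have eD3 : T m (T m (T m (T m (T m 1) - 1))) = ((2 ^ 9 : ℤ) : ℤ⟦X⟧) * (s * (t * ((2 * g2 + (b + 4 * n2) * (k + 1) : ℤ) + t * H4))) := by
      have e1 : ((8 : ℤ) : ℤ⟦X⟧) * (4 * (2 * ((b + 4 * n2 : ℤ) : ℤ⟦X⟧) * t + t ^ 2 * (8 * G2)))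
          = ((32 : ℤ) : ℤ⟦X⟧) * (2 * ((b + 4 * n2 : ℤ) : ℤ⟦X⟧) * t + t ^ 2 * (((8 * g2 : ℤ) : ℤ⟦X⟧) + t * (8 * G3))) := by
        rw [eG2]; push_cast; ring
      rw [eD2, e1, T_zsmul', eA2]
      push_cast
      ring
    have hmem : (((2 * g2 + (b + 4 * n2) * (k + 1) : ℤ) : ℤ⟦X⟧) + t * H4) ∈ S :=
      S.add_mem (int_mem _) (S.mul_mem t_mem hH4)
    obtain ⟨H5, hH5, e5⟩ := T_odd_st (2 * k + 1) _ hmem
    rw [← hmdef] at e5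
    rcases r with _ | r
    · rw [c_diff]
      have : ((T m) ^ (0 + 3)) (T m (T m 1) - 1) = T m (T m (T m (T m (T m 1) - 1))) := by
        simp [pow_succ, Module.End.mul_apply]
      rw [this, eD3]
      have e6 : ((2 ^ 9 : ℤ) : ℤ⟦X⟧) * (s * (t * ((2 * g2 + (b + 4 * n2) * (k + 1) : ℤ) + t * H4)))
          = (((2 : ℤ) ^ (0 + 3 + 8) : ℤ) : ℤ⟦X⟧) * (s * (u * ((2 * g2 + (b + 4 * n2) * (k + 1) : ℤ) + t * H4))) := by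
        rw [show t * ((((2 * g2 + (b + 4 * n2) * (k + 1) : ℤ)) : ℤ⟦X⟧) + t * H4) = 4 * u * ((((2 * g2 + (b + 4 * n2) * (k + 1) : ℤ)) : ℤ⟦X⟧) + t * H4) by rw [t_eq]]
        push_cast
        ring
      rw [e6]
      exact dvd_coeff_gen _ _ _ _
    · rw [c_diff]
      have h4 : T m (T m (T m (T m (T m (T m 1) - 1)))) = ((1 : ℤ) : ℤ⟦X⟧) * (2 ^ 10 * (t * H5)) := by
        rw [eD3, T_zsmul', e5]; push_cast; ring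
      obtain ⟨H6, hH6, e6⟩ := T_odd_iter_coarse (2 * k + 1) 10 1 H5 hH5 r
      rw [← hmdef] at e6
      have : ((T m) ^ (r + 1 + 3)) (T m (T m 1) - 1) = ((T m) ^ r) (T m (T m (T m (T m (T m (T m 1) - 1))))) := by
        have : r + 1 + 3 = r + 1 + 1 + 1 + 1 := by ring
        rw [this]
        simp only [pow_succ, Module.End.mul_apply]
      rw [this, h4, e6]
      have e7 : ((1 : ℤ) : ℤ⟦X⟧) * (2 ^ (10 + r) * (t * H6)) = (((2 : ℤ) ^ (r + 1 + 3 + 8) : ℤ) : ℤ⟦X⟧) * (u * H6) := by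
        rw [t_eq]; push_cast; ring
      rw [e7]
      exact dvd_coeff_gen _ _ _ _

end Pool.Agent.Lib.MP_918176_nt
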